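import Pool.Agent.K3h16.FG.Stm

/-! FG project (helper16, MP_e09b14_ag), brick DUAL: duality. -/

set_option autoImplicit false

namespace Pool.Agent.K3h16.FG

open MvPolynomial Pool.Agent.R920.WC

/-- the minimal relations are relations -/
theorem MinExp.isRel_h7 {ι : Type} [DecidableEq ι] {a c : ι → ℕ} {C : Finset ι}
    (ha : ∀ i ∈ C, 1 < a i) (hc : MinExp a c C) {i : ι} (hi : i ∈ C) {m : ι → ℕ} (hm0 : m i = 0)
    (hm : dg a C m = c i * a i) : Rel a c C i m := by
  refine ⟨hm, ?_⟩
  by_contra hcon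
  push Not at hcon
  have h0 : dg a C m = 0 := by
    refine Finset.sum_eq_zero fun k hk => ?_
    by_cases hki : k = i
    · rw [hki, hm0, zero_mul]
    · rw [hcon k hk hki, zero_mul]
  have h1 : 0 < c i * a i := Nat.mul_pos (hc.pos i hi) (by have := ha i hi; omega)
  omega

theorem t_DUAL : S_POT → S_RED → S_MIN → S_DUAL := by
  intro hPOT hRED _ ι _ a c C ha hcop hc hC E l r hl hr hE
  classical
  have hapos : ∀ i ∈ C, 0 < a i := fun i hi => by have := ha i hi; omega
  -- the set of the `u`
  have hex : ∃ u : ℕ, ∃ m : ι → ℕ, dg a C m + c l * a l = E + u * a r := by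
    set N0 := ∑ i ∈ C, (c i - 1) * (a i - 1) with hN0
    have h1 : N0 + c l * a l ≤ E + (N0 + c l * a l) * a r := by
      have : (N0 + c l * a l) * 1 ≤ (N0 + c l * a l) * a r := Nat.mul_le_mul_left _ (hapos r hr)
      omega
    have h2 : N0 ≤ E + (N0 + c l * a l) * a r - c l * a l := by omega
    obtain ⟨m, hm⟩ := hC.mem_of_large ha hcop (fun i hi => hc.pos i hi) h2
    refine ⟨N0 + c l * a l, m, ?_⟩
    show ∑ k ∈ C, m k * a k + c l * a l = _
    omega
  obtain ⟨m', hm'⟩ := Nat.find_spec hex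
  set u := Nat.find hex with hu
  have hmin : ∀ v < u, ¬ ∃ m : ι → ℕ, dg a C m + c l * a l = E + v * a r :=
    fun v hv => Nat.find_min hex hv
  have hu1 : 1 ≤ u := by
    by_contra hcon
    have hu0 : u = 0 := by omega
    rw [hu0, zero_mul, add_zero] at hm'
    have h1 := hE (fun k => m' k + if k = l then c l else 0)
      (by rw [dg_add_single a C m' hl (c l), hm'])
    simp only [if_true] at h1
    omega
  -- the relations
  choose! M hM0 hM using hc.rel
  have hMrel : ∀ i ∈ C, Rel a c C i (M i) := fun i hi => hc.isRel_h7 ha hi (hM0 i hi) (hM i hi)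
  obtain ⟨W, hW⟩ := hPOT a c C {r} (Finset.singleton_subset_iff.2 hr) (by
    intro U hU hcl
    have h1 := hC.2 U (hU.trans Finset.sdiff_subset) hcl
    have h2 : r ∈ U := by rw [h1]; exact hr
    exact (Finset.mem_sdiff.1 (hU h2)).2 (Finset.mem_singleton_self r))
  obtain ⟨m, hm1, -, -, -, hm2⟩ := hRED (G := PUnit) (fun _ => 1) a c W (fun _ => 0) C {r} M hapos
    (fun i hi => hM i (Finset.mem_sdiff.1 hi).1) (fun i hi => Subsingleton.elim _ _)
    (fun i hi => hW i hi (M i) (hMrel i (Finset.mem_sdiff.1 hi).1))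
    (fun i hi => by rw [mul_zero]; exact Nat.zero_le _) m'
  have hmr : m r = 0 := by
    by_contra hcon
    refine hmin (u - 1) (by omega) ⟨fun k => if k = r then m k - 1 else m k, ?_⟩
    have h1 := dg_sub_single a C m hr (t := 1) (by omega)
    have h2 : u * a r = (u - 1) * a r + 1 * a r := by rw [← add_mul, Nat.sub_add_cancel hu1]
    omega
  have hm3 : ∀ i ∈ C, i ≠ r → m i < c i := fun i hi hir =>
    hm2 i (Finset.mem_sdiff.2 ⟨hi, fun h => hir (Finset.mem_singleton.1 h)⟩)
  refine ⟨fun k => if k = r then u - 1 else c k - 1 - m k, ?_⟩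
  -- sums
  have e1 : dg a C (fun k => if k = r then u - 1 else c k - 1 - m k) + dg a C m =
      (u - 1) * a r + ∑ i ∈ C.erase r, (c i - 1) * a i := by
    rw [← dg_add, ← dg_erase a C _ hr]
    congr 1
    · simp only [if_true, hmr, add_zero]
    · refine Finset.sum_congr rfl fun k hk => ?_
      have hkr := Finset.ne_of_mem_erase hk
      have h1 := hm3 k (Finset.mem_of_mem_erase hk) hkr
      have h2 : (if k = r then u - 1 else c k - 1 - m k) + m k = c k - 1 := by
        rw [if_neg hkr]
        omega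
      show ((if k = r then u - 1 else c k - 1 - m k) + m k) * a k = (c k - 1) * a k
      rw [h2]
  have e2 : ∑ i ∈ C, (c i - 1) * a i = (c r - 1) * a r + ∑ i ∈ C.erase r, (c i - 1) * a i :=
    (Finset.add_sum_erase C (fun i => (c i - 1) * a i) hr).symm
  have e3 : c r * a r = (c r - 1) * a r + 1 * a r := by
    rw [← add_mul, Nat.sub_add_cancel (hc.pos r hr)]
  have e4 : u * a r = (u - 1) * a r + 1 * a r := by rw [← add_mul, Nat.sub_add_cancel hu1]
  rw [e2, e3]
  omega

end Pool.Agent.K3h16.FG
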